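import Pool.Agent.Helper3.GU.Fin
import Pool.Graph.R_pool_sql_team_seeded_1acbe0a2.Y101.Th.TBMain

/-!
# The Tate conjecture for higher Chow groups and the complements of graph hypersurfaces

Let `k` be the field with `p` elements. For a simple graph `G` with the vertices `0, …, n` let `K_G` be the
Kirchhoff polynomial: the determinant of the Laplacian matrix (in the variables of the edges) without the
row and the column of the vertex `0`, and `Ψ_G` the first Symanzik polynomial, the determinant of the
expanded Laplacian matrix. `G` runs through the graphs with at most three neighbours of each vertex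
(`Subcubic`).

`T` is the motivic and `ℓ`-adic Borel-Moore homology of the schemes over `k` with the regulators, with the
known properties `IsHomology`, `TBKnown` of the starting library. `Onto T X` says that the regulators
`c^{i,j}` of `X` are surjective onto the invariants of the Frobenius, and `TB T X` that they are bijective and
the eigenvalue one of the Frobenius is semisimple, in all degrees and for all twists.

**Theorem.** The regulators are surjective onto the invariants for all smooth varieties over `k` (question
Q1 for `k`) if and only if `TB T X` is true for each one of the following classes of schemes `X`: all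
separated schemes of finite type; the complements of `K_G = 0` in the affine spaces; the hypersurfaces
`K_G = 0`; the complements of `K_G = 0` in the tori; the complements of `Ψ_G = 0` in the tori.
-/

set_option autoImplicit false

open AlgebraicGeometry Pool.Agent.Y116.UV Pool.Agent.Q193.LT Pool.Agent.Y101.Th Pool.Agent.Helper3.GU

namespace Pool.Agent.Results.MP_81b968_ag.GraphComplements

/-- **The Tate conjecture for higher Chow groups and graph hypersurfaces.** -/
theorem result {k Ω : Type} [Field k] [Finite k] (hk : (Nat.card k).Prime) [Field Ω] [CharZero Ω]
    {T : Homology k Ω} (hT : IsHomology T) (hK : TBKnown T) :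
    List.TFAE [∀ X : Sch k, FT True X → Smooth X.hom → Onto T X,
      ∀ X : Sch k, FT True X → TB T X,
      ∀ (n : ℕ) (G : SimpleGraph (Fin (n + 1))), Subcubic G → TB T (graphS k G),
      ∀ (n : ℕ) (G : SimpleGraph (Fin (n + 1))), Subcubic G → TB T (graphH k G),
      ∀ (n : ℕ) (G : SimpleGraph (Fin (n + 1))), Subcubic G → TB T (graphT k G),
      ∀ (n : ℕ) (G : SimpleGraph (Fin (n + 1))), Subcubic G → TB T (feynmanT k G)] :=
  cons_all (cubic_tfae (mot_of_bnd (bnd_tb hT)) (presents_frac (frac_of_card hk)))
    ⟨fun h X hX => (gen_all (bnd_tb hT).toUni).mpr ((tb_smproj hT hK).mp (hK.surjectivity h)) X hX,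
      fun h X hX _ => onto_of_tb (h X hX)⟩

end Pool.Agent.Results.MP_81b968_ag.GraphComplements
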