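import Pool.Agent.Helper13.RM.CList
import Pool.Agent.Helper3.GU.Fin

/-!
# The Tate conjecture for higher Chow groups and rational moduli spaces of planar configurations

Let `k` be the field with `p` elements. For a smooth scheme `X` over `k` let
`c i j : A i j X → V i j X` be the map `c^{i,j}_X` of the question, from `CH^j(X, 2j - i) ⊗ ℚ_ℓ` to the
Galois invariants of `H^i(X̄, ℚ_ℓ(j))`, and `res` the restriction of the invariants to open subschemes
(`RegData`). `Onto D i j X` says that `c^{i,j}_X` is surjective.

The map for the function field of an integral scheme `X` is the direct limit of the maps for the nonempty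
open subschemes. It is surjective if and only if for each nonempty open subscheme `V` and each
Galois invariant class `x` on `V` there is a nonempty open subscheme `W` of `V` such that the restriction of
`x` to `W` is in the image of `c^{i,j}_W` (`GenericOnto D i j X`).

It is known that question Q1 for the rational function fields `k(x_1, …, x_n)`, for all `n`, implies the
conjectures of Tate and Beilinson and the semisimplicity for all smooth projective varieties over `k`, see
the problem file. By Geisser these imply Parshin's conjecture, and by Jannsen the bijectivity of all the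
maps `c^{i,j}` for all smooth varieties over `k`, so Q1 (hypothesis `fields`). No other property of the
maps is used.

A matroid `M` of rank three on the set `Fin 4 ⊕ Fin m` is **framed** if any three of the four elements of
`Fin 4` form a base; it is **simple** if any two elements are independent. Let `modS k M` be the moduli
space over `k` of the configurations of `m + 4` different points in the projective plane in which exactly
the triples prescribed by `M` are collinear, modulo projective transformations: the four points of `Fin 4`
are the points of `e_1, e_2, e_3, e_1 + e_2 + e_3`, and the other ones have normalised coordinates.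

**Theorem.** (1) Let `X` be an integral scheme of finite type over `k`. If `c^{i,j}` is surjective for the
nonempty moduli spaces `modS k M` (`M` simple and framed) which are isomorphic to open subschemes of `X`,
then it is surjective for the function field of `X`.

(2) The following are equivalent:

* question Q1 for `k` (so for all finite fields of characteristic `p`): `c^{i,j}_X` is surjective for all
  smooth varieties `X` over `k` and all `i`, `j`;
* `c^{i,j}` is surjective for all moduli spaces `modS k M`, `M` simple and framed, which are integral and
  smooth;
* `c^{i,j}` is surjective for all nonempty moduli spaces `modS k M`, `M` simple and framed, which are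
  isomorphic to open subschemes of affine spaces.

Neither the injectivity of the maps nor the semisimplicity of the Frobenius is needed for these moduli
spaces. The earlier reductions (to principal opens given by bilinear forms, cubic hypersurfaces, graph
hypersurfaces) need the bijectivity and the semisimplicity.

Proof: each integral scheme contains a nonempty open subscheme which is isomorphic to a moduli space
`modS k M` (`Pool.Agent.Helper13.RM.exists_open_mod`); so these open subschemes are cofinal.
-/

set_option autoImplicit false

open CategoryTheory AlgebraicGeometry Pool.Agent.Y116.UV Pool.Agent.Z125.UN Pool.Agent.Q193.LT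
  Pool.Agent.Q282.UK Pool.Agent.Helper3.GU Pool.Agent.Helper13.RM

universe w w'

namespace Pool.Agent.Results.MP_81b968_ag.PlanarConfigurations

/-- The regulators and the restriction maps to open subschemes. -/
structure RegData (k : Type) [Field k] (E : Type w') [CommRing E] where
  /-- `CH^j(X, 2j - i) ⊗ ℚ_ℓ` -/
  A : ℤ → ℤ → Sch k → ModuleCat.{w} E
  /-- the Galois invariants of `H^i(X̄, ℚ_ℓ(j))` -/
  V : ℤ → ℤ → Sch k → ModuleCat.{w} E
  /-- the regulator -/
  c : ∀ i j X, A i j X ⟶ V i j X
  /-- the restriction to an open subscheme -/
  res : ∀ i j {U X : Sch k} (u : U ⟶ X), IsOpenImmersion u.left → (V i j X ⟶ V i j U)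

section

variable {k : Type} [Field k] {E : Type w'} [CommRing E]

/-- The map `c^{i,j}_X` is surjective. -/
def Onto (D : RegData.{w} k E) (i j : ℤ) (X : Sch k) : Prop :=
  Function.Surjective (D.c i j X).hom

/-- The map for the function field of `X` is surjective: for each nonempty open subscheme `V` of `X` and
each element `x` of `V i j V` there is a nonempty open subscheme `W` of `V` such that the restriction of
`x` to `W` is in the image of `c^{i,j}_W`. -/
def GenericOnto (D : RegData.{w} k E) (i j : ℤ) (X : Sch k) : Prop :=
  ∀ (V : Sch k) (v : V ⟶ X), IsOpenImmersion v.left → FT True V → Nonempty V.left →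
    ∀ x : D.V i j V, ∃ (W : Sch k) (w : W ⟶ V) (hw : IsOpenImmersion w.left),
      FT True W ∧ Nonempty W.left ∧ (D.res i j w hw).hom x ∈ Set.range (D.c i j W).hom

/-- `M` is a simple framed matroid of rank three, and its moduli space over `k` is not empty and
isomorphic to an open subscheme of `X`. -/
structure OpenMod (X : Sch k) {m : ℕ} (M : Matroid (Fin 4 ⊕ Fin m)) : Prop where
  framed : Framed M
  simple : IsSimple M
  nonempty : Nonempty (modS k M).left
  opened : ∃ s : modS k M ⟶ X, IsOpenImmersion s.left

/-- The affine space. -/
noncomputable def affSp (k : Type) [Field k] (n : ℕ) : Sch k := aff k (MvPolynomial (Fin n) k)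

instance (n : ℕ) : IsIntegral (affSp k n).left := by
  change IsIntegral (Spec (CommRingCat.of (MvPolynomial (Fin n) k)))
  rw [affine_isIntegral_iff]
  infer_instance

theorem generic (hR : Presents ({0, 1} : Set k)) (D : RegData.{w} k E) {X : Sch k}
    [IsIntegral X.left] (i j : ℤ)
    (h : ∀ (m : ℕ) (M : Matroid (Fin 4 ⊕ Fin m)), OpenMod X M → Onto D i j (modS k M)) :
    GenericOnto D i j X := by
  intro V v hv hV hn x
  have : IsIntegral V.left := isIntegral_of_isOpenImmersion v.left
  obtain ⟨n, M, s, h1, h2, h3, h4⟩ := exists_open_mod (sep := True) hR V hV
  refine ⟨modS k M, s, h3, ft_modT _, h4, h n M ⟨h1, h2, h4, s ≫ v, ?_⟩ _⟩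
  change IsOpenImmersion (s.left ≫ v.left)
  infer_instance

lemma smoothMod_of_open {n m : ℕ} {M : Matroid (Fin 4 ⊕ Fin m)} (h : OpenMod (affSp k n) M) :
    SmoothMod k (3 * m : ℕ) M := by
  obtain ⟨s, hs⟩ := h.opened
  exact ⟨h.framed, h.simple, isDomain_of_open s hs h.nonempty,
    smooth_aff_iff.1 (smooth_of_open s hs (smooth_aff_iff.2 ⟨inferInstance, inferInstance⟩)),
    dim_modT _⟩

end

/-- **The Tate conjecture for higher Chow groups and rational moduli spaces of planar configurations.** See
the explanations above. -/
theorem result {k : Type} [Field k] [Finite k] (hk : (Nat.card k).Prime) {E : Type w'} [CommRing E]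
    (D : RegData.{w} k E) :
    (∀ X : Sch k, IsIntegral X.left → ∀ i j : ℤ,
      (∀ (m : ℕ) (M : Matroid (Fin 4 ⊕ Fin m)), OpenMod X M → Onto D i j (modS k M)) →
        GenericOnto D i j X) ∧
    (((∀ (n : ℕ) (i j : ℤ), GenericOnto D i j (affSp k n)) →
        ∀ X : Sch k, FT True X → Smooth X.hom → ∀ i j : ℤ, Onto D i j X) →
      List.TFAE [∀ X : Sch k, FT True X → Smooth X.hom → ∀ i j : ℤ, Onto D i j X,
        ∀ (d m : ℕ) (M : Matroid (Fin 4 ⊕ Fin m)), SmoothMod k d M →
          ∀ i j : ℤ, Onto D i j (modS k M),
        ∀ (n m : ℕ) (M : Matroid (Fin 4 ⊕ Fin m)), OpenMod (affSp k n) M →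
          ∀ i j : ℤ, Onto D i j (modS k M)]) := by
  have hR : Presents ({0, 1} : Set k) := presents_frac (frac_of_card hk)
  refine ⟨fun X hX i j h => generic hR D i j h, fun fields => ?_⟩
  tfae_have 1 → 2 := fun h d m M hM => h _ (ft_modT _) (smooth_aff_iff.2 hM.smooth)
  tfae_have 2 → 3 := fun h n m M hM => h _ m M (smoothMod_of_open hM)
  tfae_have 3 → 1 := fun h => fields fun n i j => generic hR D i j fun m M hM => h n m M hM i j
  tfae_finish

end Pool.Agent.Results.MP_81b968_ag.PlanarConfigurations
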