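import Pool.Agent.Helper3.GM.App2
import Pool.Agent.Helper3.GU.Fin
import Pool.Graph.R_pool_sql_team_seeded_1acbe0a2.Y101.Th.TBMain

/-!
# The Tate conjecture for higher Chow groups and sparse matrices

Let `k` be the field with `p` elements. For a set `S` of positions in the `n × n` matrices with at most three positions in each row and in each
column (`Sparse`) let `detS` be the determinant of the generic matrix with zeros outside of `S`. (With two
positions instead of three it would be a product of monomials and binomials.)

`T` is the motivic and `ℓ`-adic Borel-Moore homology of the schemes over `k` with the regulators, with the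
known properties `IsHomology`, `TBKnown` of the starting library. `Onto T X` says that the regulators
`c^{i,j}` of `X` are surjective onto the invariants of the Frobenius, and `TB T X` that they are bijective and
the eigenvalue one of the Frobenius is semisimple, in all degrees and for all twists.

**Theorem.** (1) For each separated scheme `X` of finite type over `k` there is a finite list `L` of sets `S` of
positions, with at most three positions in each row and in each column, such that for all `ℓ` the statement
`TB T X` follows from `TB T Z` for the schemes `Z` of one of the following four kinds, `S` in `L`: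
the schemes of the invertible matrices with zeros outside of `S`; of the matrices of
determinant one with zeros outside of `S`; of the matrices of determinant zero with zeros outside of `S`; of the
invertible matrices with zeros outside of `S` and invertible entries at all positions in `S`.

(2) The regulators are surjective onto the invariants for all smooth varieties over `k` (question Q1 for `k`) if
and only if `TB T X` is true for all separated schemes `X` of finite type, and if and only if it is true for
all the schemes of one of the four kinds.
-/

set_option autoImplicit false

open AlgebraicGeometry Pool.Agent.Y116.UV Pool.Agent.Q193.LT Pool.Agent.Y101.Th Pool.Agent.Helper3.GU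
  Pool.Agent.Helper3.GM

namespace Pool.Agent.Results.MP_81b968_ag.SparseMatrices

/-- **The Tate conjecture for higher Chow groups and sparse matrices.** -/
theorem result {k : Type} [Field k] [Finite k] (hk : (Nat.card k).Prime) :
    (∀ X : Sch k, FT True X → ∃ L : List (Σ n : ℕ, Finset (Fin n × Fin n)), (∀ S ∈ L, Sparse S.2) ∧
      ∀ (Ω : Type) [Field Ω] [CharZero Ω] (T : Homology k Ω), IsHomology T → OneKind (TB T) L →
        TB T X) ∧
    ∀ (Ω : Type) [Field Ω] [CharZero Ω] (T : Homology k Ω), IsHomology T → TBKnown T →
      List.TFAE [∀ X : Sch k, FT True X → Smooth X.hom → Onto T X,
        ∀ X : Sch k, FT True X → TB T X,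
        ∀ (n : ℕ) (S : Finset (Fin n × Fin n)), Sparse S → TB T (invS k S),
        ∀ (n : ℕ) (S : Finset (Fin n × Fin n)), Sparse S → TB T (oneS k S),
        ∀ (n : ℕ) (S : Finset (Fin n × Fin n)), Sparse S → TB T (zeroS k S),
        ∀ (n : ℕ) (S : Finset (Fin n × Fin n)), Sparse S → TB T (torS k S)] := by
  refine ⟨fun X hX => ?_, fun Ω _ _ T hT hK => ?_⟩
  · obtain ⟨L, hL, h⟩ := mat_finite (sep := True) (presents_frac (frac_of_card hk)) X hX
    exact ⟨L, hL, fun Ω _ _ T hT => h _ (mot_of_bnd (bnd_tb hT))⟩
  · exact stmts_cons (mat_tfae (mot_of_bnd (bnd_tb hT)) (presents_frac (frac_of_card hk)))
      ⟨fun h X hX => (gen_all (bnd_tb hT).toUni).mpr ((tb_smproj hT hK).mp (hK.surjectivity h)) X hX,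
        fun h X hX _ => onto_of_tb (h X hX)⟩

end Pool.Agent.Results.MP_81b968_ag.SparseMatrices
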